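import Mathlib
import Pool.Agent.L7h72.AM.Stm2

/-!
# Project AM (MP_157626_nt): from the binary box to the curves by height, all the moments
-/

set_option autoImplicit false

namespace Pool.Agent.L7h53.AM

open Finset Filter Pool.Agent.W262.RK Pool.Agent.W307.RT Pool.Agent.L7h19.RH Pool.Agent.L7h72.AM2

lemma om_neg (x : ℤ) : om (-x) = om x := by
  unfold om
  rw [Int.natAbs_neg]

lemma om_sub (x y : ℤ) : om (x - y) = om (y - x) := by
  rw [← om_neg, neg_sub]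

lemma spl_neg (x y : ℤ) : spl (-x) y = spl x y := by
  unfold spl
  rw [Int.natAbs_neg]

lemma spl_sub (x y w : ℤ) : spl (x - y) w = spl (y - x) w := by
  rw [← spl_neg, neg_sub]

lemma spl_le (x y : ℤ) : spl x y ≤ om x := by
  unfold spl om
  exact card_filter_le _ _

lemma om_le (x : ℤ) : om x ≤ x.natAbs := by
  unfold om
  have h : x.natAbs.primeFactors ⊆ Icc 1 x.natAbs := by
    intro p hp
    rw [mem_Icc]
    exact ⟨(Nat.prime_of_mem_primeFactors hp).one_le, Nat.le_of_mem_primeFactors hp⟩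
  refine (card_le_card h).trans ?_
  simp

lemma IB_bdd (c : ℤ × ℤ) : BddAbove (IBset c) := by
  refine ⟨(2 * c.1).natAbs, ?_⟩
  rintro n ⟨e1, e2, e3, hs, hA, -, rfl⟩
  have h1 : spl (e2 - e3) (e2 - e1) - (om (e1 - e2) + om (e1 - e3)) ≤ (e2 - e3).natAbs :=
    (Nat.sub_le _ _).trans ((spl_le _ _).trans (om_le _))
  refine h1.trans ?_
  have h2 : ((e2 - e3).natAbs : ℤ) ≤ ((2 * c.1).natAbs : ℤ) := by
    rw [Int.natCast_natAbs, Int.natCast_natAbs]
    have hq : e1 ^ 2 + e2 ^ 2 + e3 ^ 2 = -(2 * c.1) := by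
      rw [← hA]
      have : (e1 + e2 + e3) ^ 2 = 0 := by rw [hs]; ring
      linarith
    have h4 : e2 - e3 ≤ e2 ^ 2 + e3 ^ 2 := by
      nlinarith [Int.le_self_sq e2, Int.le_self_sq (-e3)]
    have h5 : -(e2 - e3) ≤ e2 ^ 2 + e3 ^ 2 := by
      nlinarith [Int.le_self_sq (-e2), Int.le_self_sq e3]
    have h6 : e2 ^ 2 + e3 ^ 2 ≤ |2 * c.1| := by
      have := neg_le_abs (2 * c.1)
      have := sq_nonneg e1
      linarith
    rw [abs_le]
    constructor
    · linarith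
    · linarith
  exact_mod_cast h2

/-- one order of the roots -/
lemma IB_ge {c : ℤ × ℤ} {e1 e2 e3 : ℤ} (hs : e1 + e2 + e3 = 0)
    (hA : c.1 = e1 * e2 + e1 * e3 + e2 * e3) (hB : c.2 = -(e1 * e2 * e3)) :
    spl (e2 - e3) (e2 - e1) - (om (e1 - e2) + om (e1 - e3)) ≤ IB c :=
  le_csSup (IB_bdd c) ⟨e1, e2, e3, hs, hA.symm, hB.symm, rfl⟩

lemma exc_le {a b : Fin 3 → ℕ} (h : ∀ c, a c ≤ b c) {n : ℕ} (h0 : a 0 - (b 1 + b 2) ≤ n)
    (h1 : a 1 - (b 0 + b 2) ≤ n) (h2 : a 2 - (b 0 + b 1) ≤ n) : exc a b ≤ n := by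
  unfold exc
  have := h 0
  have := h 1
  have := h 2
  omega

/-- the excess of the curve by the differences of the roots -/
lemma ibz_le {c : ℤ × ℤ} {r : ℤ × ℤ × ℤ} (hr : RT3 c r) {F : Fin 3 → ℤ}
    (F0 : F 0 = r.2.1 - r.1) (F1 : F 1 = r.2.2 - r.1) (F2 : F 2 = r.2.1 - r.2.2) :
    ibz 1 F ≤ IB c := by
  obtain ⟨-, -, hs, hA, hB⟩ := hr
  obtain ⟨e1, e2, e3⟩ := r
  simp only at hs hA hB F0 F1 F2
  unfold ibz
  apply exc_le
  · intro j
    unfold sp3
    fin_cases j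
    · exact spl_le _ _
    · exact spl_le _ _
    · exact spl_le _ _
  · show spl (F 0) (-(1 * F 1)) - (om (F 1) + om (F 2)) ≤ IB c
    rw [F0, F1, F2]
    have h := IB_ge (c := c) (e1 := e3) (e2 := e1) (e3 := e2) (by linarith)
      (by rw [hA]; ring) (by rw [hB]; ring)
    have e : -(1 * (e3 - e1)) = e1 - e3 := by ring
    rw [e, spl_sub e2 e1, om_sub e2 e3]
    exact h
  · show spl (F 1) (-(1 * F 0)) - (om (F 0) + om (F 2)) ≤ IB c
    rw [F0, F1, F2]
    have h := IB_ge (c := c) (e1 := e2) (e2 := e1) (e3 := e3) (by linarith)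
      (by rw [hA]; ring) (by rw [hB]; ring)
    have e : -(1 * (e2 - e1)) = e1 - e2 := by ring
    rw [e, spl_sub e3 e1]
    exact h
  · show spl (F 2) (1 * F 0) - (om (F 0) + om (F 1)) ≤ IB c
    rw [F0, F1, F2]
    have h := IB_ge (c := c) (e1 := e1) (e2 := e2) (e3 := e3) hs hA hB
    rw [one_mul, om_sub e2 e1, om_sub e3 e1]
    exact h

/-- the vector of the three differences -/
def dv (t : ℤ × ℤ) : Fin 3 → ℤ := ![t.1, t.2, t.1 - t.2]

/-- the summand over the box -/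
noncomputable def RB (k : ℕ) (t : ℤ × ℤ) : ℝ :=
  (2 ^ Module.finrank ℤ (EAB t.1 t.2).toAffine.Point / 2 ^ ibz 1 (dv t)) ^ k

lemma RB_nonneg (k : ℕ) (t : ℤ × ℤ) : 0 ≤ RB k t := by
  unfold RB
  positivity

theorem boxk (hBND : BND) (k : ℕ) : ∃ C : ℝ, 0 ≤ C ∧ ∀ X : ℕ, 1 ≤ X →
    ∑ t ∈ (Box X).filter (fun t => t.1 ≠ 0 ∧ t.2 ≠ 0 ∧ t.1 ≠ t.2), RB k t ≤
      C * (X : ℝ) ^ 2 := by
  classical
  set α : Fin 3 → ℤ := ![1, 0, 1] with hα
  set β : Fin 3 → ℤ := ![0, 1, -1] with hβ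
  have hFM : ∀ u v : ℤ, ∀ k, FM (c4 (id : Fin 3 → Fin 3)) (fun _ => 1) (fun _ => 1)
      (fv α β u v) k = fv α β u v k := by
    intro u v k
    unfold FM
    rw [fck, prod_singleton, pow_one, one_mul]
  have f0 : ∀ u v : ℤ, fv α β u v 0 = u := by intro u v; simp [fv, hα, hβ]
  have f1 : ∀ u v : ℤ, fv α β u v 1 = v := by intro u v; simp [fv, hα, hβ]
  have f2 : ∀ u v : ℤ, fv α β u v 2 = u - v := by intro u v; simp [fv, hα, hβ]; ring
  have hdv : ∀ t : ℤ × ℤ, FM (c4 (id : Fin 3 → Fin 3)) (fun _ => 1) (fun _ => 1)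
      (fv α β t.1 t.2) = dv t := by
    intro t
    funext j
    rw [hFM]
    fin_cases j
    · exact f0 _ _
    · exact f1 _ _
    · exact f2 _ _
  obtain ⟨C, hC0, hC⟩ := hBND (Fin 3) k (id : Fin 3 → Fin 3) (fun _ => 1) (fun _ => 1) α β
    (fun _ => one_ne_zero) (fun _ => odd_one)
    (by
      intro j l hjl
      unfold Res
      rw [hα, hβ]
      revert j l
      decide) 1 odd_one (fun k => by rw [fck, sum_singleton]) (fun u v => by
      rw [hFM, hFM, hFM, f0, f1, f2])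
  refine ⟨C, hC0, fun X hX => ?_⟩
  have h := hC 1 one_ne_zero X hX
  have e1 : (Box X).filter (fun t => t.1 ≠ 0 ∧ t.2 ≠ 0 ∧ t.1 ≠ t.2) =
      (Box X).filter (fun t => ∀ j, fv α β t.1 t.2 j ≠ 0) := by
    apply filter_congr
    intro t _
    constructor
    · rintro ⟨h1, h2, h3⟩ j
      fin_cases j
      · show fv α β t.1 t.2 0 ≠ 0
        rw [f0]; exact h1
      · show fv α β t.1 t.2 1 ≠ 0
        rw [f1]; exact h2
      · show fv α β t.1 t.2 2 ≠ 0
        rw [f2]; exact sub_ne_zero.2 h3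
    · intro h
      refine ⟨?_, ?_, ?_⟩
      · have := h 0
        rwa [f0] at this
      · have := h 1
        rwa [f1] at this
      · have := h 2
        rw [f2] at this
        exact sub_ne_zero.1 this
  rw [e1]
  have e2 : ∀ t : ℤ × ℤ, RA k (id : Fin 3 → Fin 3) (fun _ => 1) (fun _ => 1) α β 1 t = RB k t := by
    intro t
    unfold RA RB
    rw [hdv, one_mul, one_mul]
    rfl
  rw [sum_congr rfl fun t _ => (e2 t).symm]
  refine le_trans (le_of_eq ?_) (h.trans (le_of_eq (by simp)))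
  apply Finset.sum_congr _ (fun _ _ => rfl)
  ext t
  simp only [mem_filter]

/-- the pointwise comparison -/
lemma ptw {H k : ℕ} {c : ℤ × ℤ} (hc : c ∈ Cv 2 H) :
    ((2 : ℝ) ^ Module.finrank ℤ (Sh c.1 c.2).toAffine.Point / 2 ^ IB c) ^ k ≤ RB k (FF c) := by
  have hc' := hc
  simp only [Cv, Finset.mem_filter] at hc'
  obtain ⟨-, hD, hH, -, -, hT⟩ := hc'
  obtain ⟨r, hr, h⟩ := FF_spec (roots3 hD hT)
  change RT3 c r at hr
  change FF c = _ at h
  have hrk := ((par2 H).2 c hc).2.2.2.2.2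
  have hib : ibz 1 (dv (FF c)) ≤ IB c := by
    apply ibz_le hr
    · rw [h]; rfl
    · rw [h]; rfl
    · rw [h]
      show r.2.1 - r.1 - (r.2.2 - r.1) = _
      ring
  unfold RB
  rw [hrk]
  apply pow_le_pow_left₀ (by positivity)
  apply div_le_div_of_nonneg_left (by positivity) (by positivity)
  exact pow_le_pow_right₀ (by norm_num) hib

/-- **S_HT** -/
theorem s_HT : S_HT := by
  intro hBND k
  classical
  obtain ⟨c, C1, T0, hc, hlow⟩ := low2
  obtain ⟨C, hC, hb⟩ := boxk hBND k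
  set C0 : ℕ := 128 with hC0
  set D := C0 * C1 + 1 with hD
  have hD1 : 1 ≤ D := by omega
  -- the sum is at most `C T ^ 2`
  have hsum : ∀ H T : ℕ, 1 ≤ T → (∀ x ∈ Cv 2 H, (FF x).1.natAbs ≤ T ∧ (FF x).2.natAbs ≤ T) →
      ∑ x ∈ Cv 2 H, ((2 : ℝ) ^ Module.finrank ℤ (Sh x.1 x.2).toAffine.Point / 2 ^ IB x) ^ k ≤
        C * (T : ℝ) ^ 2 := by
    intro H T hT hx
    refine le_trans ?_ (hb T hT)
    obtain ⟨hinj, h2⟩ := par2 H
    refine (sum_le_sum fun x hx' => ptw hx').trans ?_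
    rw [← sum_image (f := RB k) hinj]
    apply sum_le_sum_of_subset_of_nonneg
    · intro t ht
      obtain ⟨x, hx', rfl⟩ := mem_image.1 ht
      obtain ⟨a2, a3, a4, _, _, _⟩ := h2 x hx'
      rw [mem_filter, mem_Box]
      exact ⟨hx x hx', a2, a3, a4⟩
    · intro t _ _
      exact RB_nonneg k t
  refine ⟨C * ((D * (T0 + 1) : ℕ) : ℝ) ^ 2 + C * (2 * (D : ℝ)) ^ 2 / c, fun H => ?_⟩
  set K := (Cv 2 H).card with hK
  by_cases hK0 : K = 0
  · have : Cv 2 H = ∅ := card_eq_zero.1 hK0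
    rw [this, sum_empty, hK0]
    simp
  have hK1 : (1 : ℝ) ≤ K := by exact_mod_cast Nat.one_le_iff_ne_zero.2 hK0
  have hq0 : 0 ≤ C * (2 * (D : ℝ)) ^ 2 / c := by positivity
  have hr0 : 0 ≤ C * ((D * (T0 + 1) : ℕ) : ℝ) ^ 2 := by positivity
  set T := Nat.findGreatest (fun t => t ^ 6 ≤ C0 * H) (C0 * H) with hT
  have hle : ∀ x : ℕ, x ^ 6 ≤ C0 * H → x ≤ T := by
    intro x hx
    apply Nat.le_findGreatest
    · exact (Nat.le_self_pow (by omega) x).trans hx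
    · exact hx
  have hTk : T ^ 6 ≤ C0 * H := by
    have : (fun t => t ^ 6 ≤ C0 * H) T :=
      Nat.findGreatest_spec (P := fun t => t ^ 6 ≤ C0 * H) (Nat.zero_le _)
        (by rw [zero_pow (by omega)]; exact Nat.zero_le _)
    exact this
  have hxT : ∀ x ∈ Cv 2 H, (FF x).1.natAbs ≤ T ∧ (FF x).2.natAbs ≤ T := fun x hx => by
    obtain ⟨_, _, _, h1, h2, _⟩ := (par2 H).2 x hx
    exact ⟨hle _ h1, hle _ h2⟩
  rcases Nat.lt_or_ge T (D * (T0 + 1)) with hlt | hge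
  · have h1 := hsum H (D * (T0 + 1)) (Nat.mul_pos hD1 (Nat.succ_pos _)) fun x hx =>
      ⟨(hxT x hx).1.trans hlt.le, (hxT x hx).2.trans hlt.le⟩
    calc _ ≤ C * ((D * (T0 + 1) : ℕ) : ℝ) ^ 2 := h1
      _ ≤ C * ((D * (T0 + 1) : ℕ) : ℝ) ^ 2 * K := le_mul_of_one_le_right hr0 hK1
      _ ≤ _ := by
        apply mul_le_mul_of_nonneg_right _ (by linarith)
        linarith
  · have hT1 : 1 ≤ T := (Nat.mul_pos hD1 (Nat.succ_pos _)).trans_le hge
    have h1 := hsum H T hT1 hxT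
    set T' := T / D with hT'
    have hT'0 : T0 + 1 ≤ T' := by
      rw [hT', Nat.le_div_iff_mul_le hD1, mul_comm]
      exact hge
    have h2 : T' * D ≤ T := Nat.div_mul_le_self T D
    have h3 : C1 * T' ^ 6 ≤ H := by
      have a1 : (T' * D) ^ 6 ≤ C0 * H := (Nat.pow_le_pow_left h2 6).trans hTk
      rw [mul_pow] at a1
      have a2 : D ≤ D ^ 6 := Nat.le_self_pow (by omega) D
      have a3 : T' ^ 6 * (C0 * C1) ≤ C0 * H :=
        (Nat.mul_le_mul_left _ (by omega : C0 * C1 ≤ D ^ 6)).trans a1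
      have a4 : C0 * (C1 * T' ^ 6) ≤ C0 * H := by
        calc C0 * (C1 * T' ^ 6) = T' ^ 6 * (C0 * C1) := by ring
          _ ≤ _ := a3
      exact Nat.le_of_mul_le_mul_left a4 (by omega)
    have h4 := hlow T' H (by omega) h3
    have h5 : T ≤ 2 * D * T' := by
      have a1 : T < D * (T' + 1) := by
        rw [mul_comm]
        exact Nat.lt_mul_of_div_lt (by rw [← hT']; omega) hD1
      have a2 : D * (T' + 1) ≤ 2 * D * T' := by nlinarith
      omega
    have h6 : (T : ℝ) ≤ 2 * D * T' := by exact_mod_cast h5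
    calc _ ≤ C * (T : ℝ) ^ 2 := h1
      _ ≤ C * (2 * D * T') ^ 2 := by
        apply mul_le_mul_of_nonneg_left _ hC
        exact pow_le_pow_left₀ (Nat.cast_nonneg T) h6 2
      _ = C * (2 * (D : ℝ)) ^ 2 / c * (c * (T' : ℝ) ^ 2) := by
        field_simp
      _ ≤ C * (2 * (D : ℝ)) ^ 2 / c * K := mul_le_mul_of_nonneg_left h4 hq0
      _ ≤ _ := by
        apply mul_le_mul_of_nonneg_right _ (by linarith)
        linarith

end Pool.Agent.L7h53.AM
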